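import Pool.Agent.Helper47.ME.Goals

/-!
# Equality in the planar inequality in standard position (packet ME-PLSE)
-/

open MeasureTheory Set Filter Topology
open scoped ENNReal
open Pool.Agent.Helper47.AQ Pool.Agent.Helper72.MK Pool.Agent.Helper47.ME

namespace Pool.Agent.Helper62.ME

lemma exists_width {P : Set (Fin 2 → ℝ)} (hP : IsBody P) (p : Fin 2 → ℝ) :
    ∃ x ∈ P, ∃ y ∈ P, ∀ x' ∈ P, ∀ y' ∈ P,
      ∑ i, p i * (x' i - y' i) ≤ ∑ i, p i * (x i - y i) := by
  have hc : Continuous (fun z : (Fin 2 → ℝ) × (Fin 2 → ℝ) => ∑ i, p i * (z.1 i - z.2 i)) := by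
    fun_prop
  obtain ⟨z, hz, hmax⟩ := (hP.comp.prod hP.comp).exists_isMaxOn
    (hP.nonempty.prod hP.nonempty) hc.continuousOn
  refine ⟨z.1, hz.1, z.2, hz.2, fun x' hx' y' hy' => ?_⟩
  exact hmax (show (x', y') ∈ P ×ˢ P from ⟨hx', hy'⟩)

/-- Packet PLSE. -/
theorem plse (hHEX : HEX3Stmt) (hCHDE : CHDEStmt) (hBODY : BODYStmt) :
    PLSEStmt := by
  rintro P hP ⟨x1, hx1, hx1'⟩ ⟨x2, hx2, hx2'⟩ ⟨x3, hx3, hx3'⟩ ⟨p, hp, hp1⟩ ⟨q, hq, hq1⟩
    ⟨r, hr, hr1⟩ hF
  obtain ⟨hL, hLs⟩ := hBODY (Fin 2) P hP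
  -- the inequalities for the points of the polar
  have key : ∀ a ∈ dpol P, a 0 ≤ 1 ∧ -1 ≤ a 0 ∧ a 1 ≤ 1 ∧ -1 ≤ a 1 ∧ a 0 + a 1 ≤ 1 ∧
      -1 ≤ a 0 + a 1 := by
    intro a ha
    have h1 := ha _ hx1' _ hx1
    have h2 := ha _ hx1 _ hx1'
    have h3 := ha _ hx2' _ hx2
    have h4 := ha _ hx2 _ hx2'
    have h5 := ha _ hx3' _ hx3
    have h6 := ha _ hx3 _ hx3'
    simp only [Fin.sum_univ_two, Pi.add_apply, Matrix.cons_val_zero, Matrix.cons_val_one]
      at h1 h2 h3 h4 h5 h6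
    refine ⟨by linarith, by linarith, by linarith, by linarith, by linarith, by linarith⟩
  have kp := key p hp
  have kq := key q hq
  have kr := key r hr
  -- the widths
  obtain ⟨a1, ha1, b1, hb1, hw1⟩ := exists_width hP ![1, 0]
  obtain ⟨a2, ha2, b2, hb2, hw2⟩ := exists_width hP ![0, 1]
  obtain ⟨a3, ha3, b3, hb3, hw3⟩ := exists_width hP ![1, -1]
  simp only [Fin.sum_univ_two, Matrix.cons_val_zero, Matrix.cons_val_one, one_mul, zero_mul,
    add_zero, zero_add, neg_mul] at hw1 hw2 hw3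
  set w1 : ℝ := a1 0 - b1 0 with hw1def
  set w2 : ℝ := a2 1 - b2 1 with hw2def
  set w3 : ℝ := a3 0 - b3 0 + -(a3 1 - b3 1) with hw3def
  have hw1' : 1 ≤ w1 := by
    have := hw1 _ hx1' _ hx1
    simp only [Pi.add_apply, Matrix.cons_val_zero] at this
    linarith
  have hw2' : 1 ≤ w2 := by
    have := hw2 _ hx2' _ hx2
    simp only [Pi.add_apply, Matrix.cons_val_zero, Matrix.cons_val_one] at this
    linarith
  have hw3' : 1 ≤ w3 := by
    have := hw3 _ hx1' _ hx1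
    simp only [Pi.add_apply, Matrix.cons_val_zero, Matrix.cons_val_one] at this
    linarith
  -- points of the polar
  have hpL : (![1, -(-p 1)] : Fin 2 → ℝ) ∈ dpol P := by
    have : (![1, -(-p 1)] : Fin 2 → ℝ) = p := by
      ext i
      fin_cases i
      · simp [hp1]
      · simp
    rw [this]
    exact hp
  have hqL : (![-(-q 0), 1] : Fin 2 → ℝ) ∈ dpol P := by
    have : (![-(-q 0), 1] : Fin 2 → ℝ) = q := by
      ext i
      fin_cases i
      · simp
      · simp [hq1]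
    rw [this]
    exact hq
  have hrL : (![r 0, 1 - r 0] : Fin 2 → ℝ) ∈ dpol P := by
    have : (![r 0, 1 - r 0] : Fin 2 → ℝ) = r := by
      ext i
      fin_cases i
      · simp
      · simp
        linarith
    rw [this]
    exact hr
  have hm1 : (![1 / w1, 0] : Fin 2 → ℝ) ∈ dpol P := by
    intro x hx y hy
    simp only [Fin.sum_univ_two, Matrix.cons_val_zero, Matrix.cons_val_one, zero_mul, add_zero]
    have h1 := hw1 x hx y hy
    rw [one_div_mul_eq_div, div_le_one (by linarith)]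
    exact h1
  have hm2 : (![0, 1 / w2] : Fin 2 → ℝ) ∈ dpol P := by
    intro x hx y hy
    simp only [Fin.sum_univ_two, Matrix.cons_val_zero, Matrix.cons_val_one, zero_mul, zero_add]
    have h1 := hw2 x hx y hy
    rw [one_div_mul_eq_div, div_le_one (by linarith)]
    exact h1
  have hm3 : (![-(1 / w3), 1 / w3] : Fin 2 → ℝ) ∈ dpol P := by
    intro x hx y hy
    simp only [Fin.sum_univ_two, Matrix.cons_val_zero, Matrix.cons_val_one]
    have h1 := hw3 y hy x hx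
    have h2 : -(1 / w3) * (x 0 - y 0) + 1 / w3 * (x 1 - y 1) =
        (y 0 - x 0 + -(y 1 - x 1)) / w3 := by ring
    rw [h2, div_le_one (by linarith)]
    exact h1
  have hvolL := hHEX (dpol P) hL.conv hLs (-p 1) (-q 0) (r 0) (1 / w1) (1 / w2) (1 / w3)
      (by linarith [kp.2.2.2.2.1])
      (by linarith [kp.2.2.2.1]) (by linarith [kq.2.2.2.2.1]) (by linarith [kq.2.1])
      (by linarith [kr.2.2.1]) kr.1 (by positivity) (by positivity) (by positivity)
      hpL hqL hrL hm1 hm2 hm3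
  -- area of the body
  have hV := hP.vol_ne_top
  by_cases c1 : (volume P).toReal ≤ w1 / 2
  · refine hCHDE P hP x2 ![0, 1] a1 b1 hx2 hx2' ha1 hb1 (c1.trans ?_)
    simp only [Matrix.cons_val_zero, Matrix.cons_val_one, one_mul, zero_mul, zero_sub, abs_neg]
    have : w1 ≤ |a1 0 - b1 0| := le_abs_self _
    linarith
  by_cases c2 : (volume P).toReal ≤ w2 / 2
  · refine hCHDE P hP x1 ![1, 0] a2 b2 hx1 hx1' ha2 hb2 (c2.trans ?_)
    simp only [Matrix.cons_val_zero, Matrix.cons_val_one, one_mul, zero_mul, sub_zero]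
    have : w2 ≤ |a2 1 - b2 1| := le_abs_self _
    linarith
  by_cases c3 : (volume P).toReal ≤ w3 / 2
  · refine hCHDE P hP x3 ![1, 1] a3 b3 hx3 hx3' ha3 hb3 (c3.trans ?_)
    simp only [Matrix.cons_val_zero, Matrix.cons_val_one, one_mul]
    have : w3 ≤ |a3 1 - b3 1 - (a3 0 - b3 0)| := by
      rw [abs_sub_comm]
      refine le_trans ?_ (le_abs_self _)
      rw [hw3def]
      linarith
    linarith
  exfalso
  push Not at c1 c2 c3
  have hL2 := (ENNReal.ofReal_le_iff_le_toReal hP.dpol_ne_top).mp hvolL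
  unfold F at hF
  set V := (volume P).toReal with hVdef
  have hV0 : 0 < V := by linarith
  have e1 : 1 / 2 < 1 / w1 * V := by
    rw [one_div_mul_eq_div, lt_div_iff₀ (by linarith)]; linarith
  have e2 : 1 / 2 < 1 / w2 * V := by
    rw [one_div_mul_eq_div, lt_div_iff₀ (by linarith)]; linarith
  have e3 : 1 / 2 < 1 / w3 * V := by
    rw [one_div_mul_eq_div, lt_div_iff₀ (by linarith)]; linarith
  have hmul := mul_le_mul_of_nonneg_left hL2 hV0.le
  have hd : ∃ d : ℝ, 0 < d ∧ 1 / 2 + d ≤ 1 / w1 * V ∧ 1 / 2 + d ≤ 1 / w2 * V ∧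
      1 / 2 + d ≤ 1 / w3 * V := by
    refine ⟨min (1 / w1 * V - 1 / 2) (min (1 / w2 * V - 1 / 2) (1 / w3 * V - 1 / 2)), ?_, ?_, ?_,
      ?_⟩
    · exact lt_min (by linarith) (lt_min (by linarith) (by linarith))
    · linarith [min_le_left (1 / w1 * V - 1 / 2)
        (min (1 / w2 * V - 1 / 2) (1 / w3 * V - 1 / 2))]
    · linarith [min_le_right (1 / w1 * V - 1 / 2)
        (min (1 / w2 * V - 1 / 2) (1 / w3 * V - 1 / 2)),
        min_le_left (1 / w2 * V - 1 / 2) (1 / w3 * V - 1 / 2)]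
    · linarith [min_le_right (1 / w1 * V - 1 / 2)
        (min (1 / w2 * V - 1 / 2) (1 / w3 * V - 1 / 2)),
        min_le_right (1 / w2 * V - 1 / 2) (1 / w3 * V - 1 / 2)]
  obtain ⟨d, hd0, f1, f2, f3⟩ := hd
  have g1 := mul_le_mul_of_nonneg_right f1 (show 0 ≤ 1 - r 0 + -p 1 by
    linarith [kp.2.2.2.2.1, kr.1])
  have g2 := mul_le_mul_of_nonneg_right f2 (show 0 ≤ r 0 + -q 0 by
    linarith [kq.2.2.2.2.1, kr.2.2.1])
  have g3 := mul_le_mul_of_nonneg_right f3 (show 0 ≤ 2 - -q 0 - -p 1 by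
    linarith [kq.2.1, kp.2.2.2.1])
  have : V * (1 / w1 * (1 - r 0 + -p 1) + 1 / w2 * (r 0 + -q 0) + 1 / w3 * (2 - -q 0 - -p 1)) =
      1 / w1 * V * (1 - r 0 + -p 1) + 1 / w2 * V * (r 0 + -q 0) +
        1 / w3 * V * (2 - -q 0 - -p 1) := by ring
  rw [this] at hmul
  nlinarith

end Pool.Agent.Helper62.ME
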